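import Mathlib

set_option autoImplicit false

namespace Pool.Agent.H23

open Matrix

/-- `E`: first column all ones, otherwise identity. -/
def mE (m : ℕ) : Matrix (Fin (m+1)) (Fin (m+1)) ℝ :=
  Matrix.of fun i j => if j = 0 then 1 else if i = j then 1 else 0

/-- `F`: identity with first row `(1, -1/N, ...)`. -/
noncomputable def mF (m : ℕ) : Matrix (Fin (m+1)) (Fin (m+1)) ℝ :=
  Matrix.of fun i j => if i = j then 1 else if i = 0 then - (1 / ((m:ℝ)+1)) else 0

lemma det_mE (m : ℕ) : (mE m).det = 1 := by
  rw [Matrix.det_of_lowerTriangular]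
  · apply Finset.prod_eq_one
    intro i _
    simp [mE]
  · intro i j hij
    simp only [OrderDual.toDual_lt_toDual] at hij
    have h1 : j ≠ 0 := by
      intro h; rw [h] at hij; exact absurd hij (Fin.not_lt_zero _)
    simp [mE, h1, hij.ne]

lemma det_mF (m : ℕ) : (mF m).det = 1 := by
  rw [Matrix.det_of_upperTriangular]
  · apply Finset.prod_eq_one
    intro i _
    simp [mF]
  · intro i j hij
    simp only [id] at hij
    have h1 : i ≠ 0 := by
      intro h; rw [h] at hij; exact absurd hij (Fin.not_lt_zero _)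
    simp [mF, h1, hij.ne']

/-- `det (L + J) = (m+1)^2 det (L reduced)` for a symmetric matrix with zero row sums. -/
theorem det_add_J (m : ℕ) (L : Matrix (Fin (m+1)) (Fin (m+1)) ℝ)
    (hr : ∀ i, ∑ j, L i j = 0) (hc : ∀ j, ∑ i, L i j = 0) :
    (Matrix.of fun i j => L i j + 1).det
      = ((m:ℝ)+1) ^ 2 * (Matrix.of fun i j : Fin m => L i.succ j.succ).det := by
  set N : ℝ := (m:ℝ) + 1 with hN
  have hN0 : N ≠ 0 := by positivity
  set M : Matrix (Fin (m+1)) (Fin (m+1)) ℝ := Matrix.of fun i j => L i j + 1 with hM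
  -- M * E
  have hMr : ∀ i, ∑ j, M i j = N := by
    intro i
    simp only [hM, Matrix.of_apply, Finset.sum_add_distrib, hr]
    simp [hN]
  have hMc : ∀ j, ∑ i, M i j = N := by
    intro j
    simp only [hM, Matrix.of_apply, Finset.sum_add_distrib, hc]
    simp [hN]
  have hME : ∀ i j, (M * mE m) i j = if j = 0 then N else M i j := by
    intro i j
    rw [Matrix.mul_apply]
    by_cases h : j = 0
    · simp [mE, h, hMr]
    · simp [mE, h]
  have hEME : ∀ i j, ((mE m)ᵀ * (M * mE m)) i j
      = if i = 0 then (if j = 0 then N ^ 2 else N) else (if j = 0 then N else M i j) := by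
    intro i j
    rw [Matrix.mul_apply]
    simp only [hME, Matrix.transpose_apply]
    by_cases h : i = 0
    · by_cases h' : j = 0
      · simp [mE, h, h']
        rw [← hN]; ring
      · simp [mE, h, h', hMc]
    · by_cases h' : j = 0
      · simp [mE, h, h']
      · simp [mE, h, h']
  set P : Matrix (Fin (m+1)) (Fin (m+1)) ℝ := (mE m)ᵀ * (M * mE m) with hP
  have hPF : ∀ i j, (P * mF m) i j
      = if j = 0 then P i 0 else P i j - P i 0 / N := by
    intro i j
    rw [Matrix.mul_apply, Fin.sum_univ_succ]
    rcases Fin.eq_zero_or_eq_succ j with h | ⟨l, h⟩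
    · subst h
      simp [mF, Fin.succ_ne_zero]
    · subst h
      simp only [mF, Matrix.of_apply, Fin.succ_ne_zero, if_false]
      rw [if_neg (Fin.succ_ne_zero l).symm]
      simp only [if_true]
      rw [Finset.sum_eq_single l]
      · simp; ring
      · intro b _ hb
        rw [if_neg (fun h => hb (Fin.succ_injective _ h))]; ring
      · simp
  set R : Matrix (Fin (m+1)) (Fin (m+1)) ℝ := P * mF m with hR
  have hR0 : R 0 0 = N ^ 2 := by rw [hPF]; simp [hEME]
  have hR0s : ∀ l : Fin m, R 0 l.succ = 0 := by
    intro l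
    rw [hPF]
    simp only [Fin.succ_ne_zero, if_false, hEME, if_true]
    field_simp; ring
  have hRss : ∀ i j : Fin m, R i.succ j.succ = L i.succ j.succ := by
    intro i j
    rw [hPF]
    simp only [Fin.succ_ne_zero, if_false, hEME, if_true]
    simp only [hM, Matrix.of_apply]
    field_simp; ring
  have hdetR : R.det = M.det := by
    rw [hR, Matrix.det_mul, det_mF, hP, Matrix.det_mul, Matrix.det_transpose, det_mE,
      Matrix.det_mul, det_mE]; ring
  rw [← hdetR, Matrix.det_succ_row_zero, Fin.sum_univ_succ]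
  simp only [hR0, hR0s]
  simp only [Fin.val_zero, pow_zero, one_mul, mul_zero, zero_mul, Finset.sum_const_zero, add_zero]
  congr 1
  congr 1
  ext i j
  simp [hRss]

end Pool.Agent.H23
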