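import Mathlib

set_option autoImplicit false

namespace Pool.Agent.H23

open Real Set

/-- monotonicity helper: nonneg derivative on an interval gives `f u ≤ f v`. -/
lemma mono_aux (f f' : ℝ → ℝ) (u v : ℝ) (huv : u ≤ v)
    (hd : ∀ x ∈ Icc u v, HasDerivAt f (f' x) x) (hn : ∀ x ∈ Ioo u v, 0 ≤ f' x) : f u ≤ f v := by
  have hm : MonotoneOn f (Icc u v) := by
    apply monotoneOn_of_deriv_nonneg (convex_Icc u v)
    · intro x hx
      exact (hd x hx).continuousAt.continuousWithinAt
    · intro x hx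
      rw [interior_Icc] at hx
      exact (hd x (Ioo_subset_Icc_self hx)).differentiableAt.differentiableWithinAt
    · intro x hx
      rw [interior_Icc] at hx
      rw [(hd x (Ioo_subset_Icc_self hx)).deriv]
      exact hn x hx
  exact hm (left_mem_Icc.2 huv) (right_mem_Icc.2 huv) huv

lemma anti_aux (f f' : ℝ → ℝ) (u v : ℝ) (huv : u ≤ v)
    (hd : ∀ x ∈ Icc u v, HasDerivAt f (f' x) x) (hn : ∀ x ∈ Ioo u v, f' x ≤ 0) : f v ≤ f u := by
  have := mono_aux (fun x => - f x) (fun x => - f' x) u v huv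
    (fun x hx => (hd x hx).neg) (fun x hx => by have := hn x hx; linarith)
  linarith

/-- `log x ≤ (x - 1/x)/2` for `x ≥ 1`. -/
lemma log_le_half_sub (b : ℝ) (hb : 1 ≤ b) : log b ≤ (b - 1 / b) / 2 := by
  have := mono_aux (fun x => (x - x⁻¹) / 2 - log x) (fun x => (1 - (-(x ^ 2)⁻¹)) / 2 - x⁻¹) 1 b hb
    (fun x hx => by
      have hx0 : x ≠ 0 := by have := hx.1; intro h; rw [h] at this; linarith
      exact (((hasDerivAt_id' x).sub (hasDerivAt_inv hx0)).div_const 2).sub (hasDerivAt_log hx0))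
    (fun x hx => by
      have hx0 : 0 < x := by have := hx.1; linarith
      have : (1 - (-(x ^ 2)⁻¹)) / 2 - x⁻¹ = (1 - x⁻¹) ^ 2 / 2 := by
        field_simp; ring
      rw [this]; positivity)
  simp at this
  rw [one_div]; linarith

/-- `log (1+u) ≤ u - u²/2 + u³/3` for `u ≥ 0`. -/
lemma log_one_add_le (u : ℝ) (hu : 0 ≤ u) : log (1 + u) ≤ u - u ^ 2 / 2 + u ^ 3 / 3 := by
  have := mono_aux (fun x => x - x ^ 2 / 2 + x ^ 3 / 3 - log (1 + x))
    (fun x => 1 - (2 * x) / 2 + (3 * x ^ 2) / 3 - (1 + x)⁻¹ * 1) 0 u hu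
    (fun x hx => by
      have hx0 : 1 + x ≠ 0 := by have := hx.1; intro h; linarith
      have h1 : HasDerivAt (fun x : ℝ => x ^ 2 / 2) ((2 * x) / 2) x := by
        have := (hasDerivAt_pow 2 x).div_const 2
        simpa using this
      have h2 : HasDerivAt (fun x : ℝ => x ^ 3 / 3) ((3 * x ^ 2) / 3) x := by
        have := (hasDerivAt_pow 3 x).div_const 3
        simpa using this
      have h3 : HasDerivAt (fun x : ℝ => log (1 + x)) ((1 + x)⁻¹ * 1) x := by
        have h4 : HasDerivAt (fun x : ℝ => 1 + x) 1 x := by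
          simpa using (hasDerivAt_id' x).const_add 1
        exact (hasDerivAt_log hx0).comp x h4
      exact (((hasDerivAt_id' x).sub h1).add h2).sub h3)
    (fun x hx => by
      have hx0 : 0 < x := hx.1
      have : 1 - (2 * x) / 2 + (3 * x ^ 2) / 3 - (1 + x)⁻¹ * 1 = x ^ 3 / (1 + x) := by
        have : 1 + x ≠ 0 := by positivity
        field_simp; ring
      rw [this]; positivity)
  simp at this
  linarith

/-- Hermite interpolation inequality. -/
lemma hermite (b : ℝ) (hb : 1 < b) (x : ℝ) (hx0 : 0 < x) (hxb : x ≤ b) :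
    log x + (log b / (b - 1)) * (1 - x)
      + (1 - log b / (b - 1)) * (b - x) * (1 - x) / (b - 1) ≤ 0 := by
  have hb1 : 0 < b - 1 := by linarith
  set A := log b / (b - 1) with hA
  set c := 2 * (1 - A) / (b - 1) with hc
  have hlog : log b = A * (b - 1) := by rw [hA]; field_simp
  have hA1 : A ≤ 1 := by
    rw [hA, div_le_one hb1]
    have := log_le_sub_one_of_pos (show (0:ℝ) < b by linarith)
    exact this
  have hc0 : 0 ≤ c := by
    rw [hc]; apply div_nonneg _ hb1.le; linarith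
  have hcb : c * (b - 1) = 2 * (1 - A) := by rw [hc]; field_simp
  -- log b ≥ 2 (b-1)/(b+1)
  have hlb : 2 * (b - 1) / (b + 1) ≤ log b := by
    have h := sum_range_le_log_div (x := (b - 1) / (b + 1)) (by positivity)
      (by rw [div_lt_one (by linarith)]; linarith) 1
    have h2 : (1 + (b - 1) / (b + 1)) / (1 - (b - 1) / (b + 1)) = b := by
      have : b + 1 ≠ 0 := by linarith
      have : (1 - (b - 1) / (b + 1)) ≠ 0 := by
        have h3 : 1 - (b - 1) / (b + 1) = 2 / (b + 1) := by field_simp; ring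
        rw [h3]; positivity
      field_simp
      ring
    rw [h2] at h
    simp at h
    have : 2 * (b - 1) / (b + 1) = 2 * ((b - 1) / (b + 1)) := by ring
    rw [this]; linarith
  have hc1 : c ≤ 1 := by
    rw [hc, div_le_one hb1]
    -- 2(1-A) ≤ b-1
    have h1 : 2 * (b - 1) / (b + 1) / (b - 1) ≤ A := by
      rw [hA]; gcongr
    have h2 : 2 * (b - 1) / (b + 1) / (b - 1) = 2 / (b + 1) := by
      field_simp
    rw [h2] at h1
    have h3 : 2 * (1 - 2 / (b + 1)) ≤ b - 1 := by
      have : b - 1 - 2 * (1 - 2 / (b + 1)) = (b - 1) ^ 2 / (b + 1) := by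
        field_simp; ring
      have h4 : 0 ≤ (b - 1) ^ 2 / (b + 1) := by positivity
      linarith
    linarith
  set F : ℝ → ℝ := fun z => log z + A * (1 - z) + (c / 2) * ((b - z) * (1 - z)) with hF
  have hFx : log x + A * (1 - x) + (1 - A) * (b - x) * (1 - x) / (b - 1) = F x := by
    simp only [hF, hc]; field_simp
  rw [hFx]
  have hder : ∀ z, 0 < z → HasDerivAt F ((1 - z) * (1 - c * z) / z) z := by
    intro z hz
    have h1 : HasDerivAt (fun z : ℝ => A * (1 - z)) (A * (-1)) z := by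
      have := ((hasDerivAt_id' z).const_sub 1).const_mul A
      simpa using this
    have h2 : HasDerivAt (fun z : ℝ => (c / 2) * ((b - z) * (1 - z)))
        ((c / 2) * ((-1) * (1 - z) + (b - z) * (-1))) z := by
      have h3 := ((hasDerivAt_id' z).const_sub b).mul ((hasDerivAt_id' z).const_sub 1)
      exact h3.const_mul (c / 2)
    have h3 := ((hasDerivAt_log hz.ne').add h1).add h2
    have h4 : z⁻¹ + A * (-1) + (c / 2) * ((-1) * (1 - z) + (b - z) * (-1))
        = (1 - z) * (1 - c * z) / z := by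
      field_simp
      nlinarith [hcb]
    rw [← h4]
    exact h3
  have hF1 : F 1 = 0 := by simp [hF]
  have hFb : F b = 0 := by
    simp only [hF]
    rw [hlog]; ring
  rcases le_total x 1 with h | h
  · -- increasing on [x,1]
    have := mono_aux F (fun z => (1 - z) * (1 - c * z) / z) x 1 h
      (fun z hz => hder z (by linarith [hz.1]))
      (fun z hz => by
        have hz0 : 0 < z := by linarith [hz.1]
        have h1 : 0 ≤ 1 - z := by linarith [hz.2]
        have h2 : 0 ≤ 1 - c * z := by nlinarith [hz.2]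
        positivity)
    linarith
  · rcases le_total (c * x) 1 with h1 | h1
    · have := anti_aux F (fun z => (1 - z) * (1 - c * z) / z) 1 x h
        (fun z hz => hder z (by linarith [hz.1]))
        (fun z hz => by
          have hz0 : 0 < z := by linarith [hz.1]
          have h2 : 0 ≤ z - 1 := by linarith [hz.1]
          have h3 : 0 ≤ 1 - c * z := by nlinarith [hz.2]
          have h4 : (1 - z) * (1 - c * z) / z = - ((z - 1) * (1 - c * z) / z) := by ring
          rw [h4]
          have : 0 ≤ (z - 1) * (1 - c * z) / z := by positivity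
          linarith)
      linarith
    · have := mono_aux F (fun z => (1 - z) * (1 - c * z) / z) x b hxb
        (fun z hz => hder z (by linarith [hz.1]))
        (fun z hz => by
          have hz0 : 0 < z := by linarith [hz.1]
          have h2 : 0 ≤ z - 1 := by linarith [hz.1]
          have h3 : 0 ≤ c * z - 1 := by nlinarith [hz.1]
          have h4 : (1 - z) * (1 - c * z) / z = (z - 1) * (c * z - 1) / z := by ring
          rw [h4]
          positivity)
      linarith

/-- the constant `a = ½ log (N/(N-2))`. -/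
noncomputable def ca (N : ℝ) : ℝ := log (N / (N - 2)) / 2

/-- the constant `κ = ½ (1/(N-2) - a)`. -/
noncomputable def ck (N : ℝ) : ℝ := (1 / (N - 2) - ca N) / 2

lemma ca_lb (N : ℝ) (hN : 3 ≤ N) : 1 / (N - 1) + (1 / (N - 1)) ^ 3 / 3 ≤ ca N := by
  have h1 : 0 < N - 1 := by linarith
  have h2 : 0 < N - 2 := by linarith
  have h := sum_range_le_log_div (x := 1 / (N - 1)) (by positivity)
    (by rw [div_lt_one h1]; linarith) 2
  have h3 : (1 + 1 / (N - 1)) / (1 - 1 / (N - 1)) = N / (N - 2) := by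
    have h4 : 1 - 1 / (N - 1) = (N - 2) / (N - 1) := by field_simp; ring
    have h5 : 1 + 1 / (N - 1) = N / (N - 1) := by field_simp; ring
    rw [h4, h5]; field_simp
  rw [h3] at h
  simp only [Finset.sum_range_succ, Finset.sum_range_zero] at h
  norm_num at h
  unfold ca
  have : 1 / (N - 1) = (N - 1)⁻¹ := one_div _
  rw [this, inv_pow]
  linarith

lemma ca_ub (N : ℝ) (hN : 3 ≤ N) : ca N ≤ 1 / (N - 2) - 1 / (N * (N - 2)) := by
  have h2 : 0 < N - 2 := by linarith
  have h0 : 0 < N := by linarith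
  have h := log_le_half_sub (N / (N - 2)) (by rw [le_div_iff₀ h2]; linarith)
  unfold ca
  have : (N / (N - 2) - 1 / (N / (N - 2))) / 2 = 2 * (1 / (N - 2) - 1 / (N * (N - 2))) := by
    field_simp; ring
  linarith

lemma ck_nonneg (N : ℝ) (hN : 3 ≤ N) : 1 / (2 * N ^ 2) ≤ ck N := by
  have h2 : 0 < N - 2 := by linarith
  have h0 : 0 < N := by linarith
  have := ca_ub N hN
  unfold ck
  have h3 : 1 / (2 * N ^ 2) ≤ 1 / (N * (N - 2)) / 2 := by
    rw [div_div, div_le_div_iff₀ (by positivity) (by positivity)]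
    nlinarith
  linarith

lemma inv_le_ca (N : ℝ) (hN : 3 ≤ N) : 1 / N ≤ ca N := by
  have := ca_lb N hN
  have h1 : 0 < N - 1 := by linarith
  have h0 : 0 < N := by linarith
  have h2 : 1 / N ≤ 1 / (N - 1) := by
    apply one_div_le_one_div_of_le h1; linarith
  have : 0 ≤ (1 / (N - 1)) ^ 3 / 3 := by positivity
  linarith

/-- the function `g`. -/
noncomputable def cg (N y : ℝ) : ℝ := log (1 - y / N) + ca N * y

/-- (A) -/
lemma cg_A (N : ℝ) (hN : 3 ≤ N) (y : ℝ) (hy0 : 0 ≤ y) (hyN : y < N) :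
    cg N y ≤ - ck N * (y * (y - 2)) := by
  have h2 : 0 < N - 2 := by linarith
  have h0 : 0 < N := by linarith
  set x := (N - y) / (N - 2) with hx
  have hx0 : 0 < x := by rw [hx]; apply div_pos _ h2; linarith
  have hb : 1 < N / (N - 2) := by rw [lt_div_iff₀ h2]; linarith
  have h := hermite (N / (N - 2)) hb x hx0 (by rw [hx]; gcongr; linarith)
  have hlogx : log (1 - y / N) = log x - log (N / (N - 2)) := by
    rw [← log_div hx0.ne' (by positivity)]
    congr 1
    rw [hx]; field_simp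
  have hyx : y = N - (N - 2) * x := by rw [hx]; field_simp; ring
  have hb1 : N / (N - 2) - 1 = 2 / (N - 2) := by field_simp; ring
  have hlog : log (N / (N - 2)) = 2 * ca N := by unfold ca; ring
  rw [hb1, hlog] at h
  unfold cg
  rw [hlogx, hlog]
  have e1 : 2 * ca N / (2 / (N - 2)) = ca N * (N - 2) := by field_simp
  rw [e1] at h
  have e2 : ck N = (1 - ca N * (N - 2)) / (2 * (N - 2)) := by
    unfold ck; field_simp
  rw [e2]
  have e3 : - ((1 - ca N * (N - 2)) / (2 * (N - 2))) * (y * (y - 2))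
      - (log x - 2 * ca N + ca N * y)
      = - (log x + ca N * (N - 2) * (1 - x) + (1 - ca N * (N - 2)) * (N / (N - 2) - x) * (1 - x) / (2 / (N - 2))) := by
    rw [hyx]
    field_simp
    ring
  linarith

/-- key polynomial inequality at `q = √(N-2)`. -/
lemma key_poly (q : ℝ) (hq : 1 ≤ q) :
    1 / (q ^ 2 + 2) + 1 / (2 * q) - q / (2 * (q ^ 2 + 2) ^ 2) + q ^ 2 / (3 * (q ^ 2 + 2) ^ 3)
      ≤ (1 / (q ^ 2 + 1) + (1 / (q ^ 2 + 1)) ^ 3 / 3) * (1 + q / 2) := by
  obtain ⟨r, hr, rfl⟩ : ∃ r : ℝ, 0 ≤ r ∧ q = 1 + r := ⟨q - 1, by linarith, by ring⟩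
  rw [← sub_nonneg]
  have : (1 / ((1 + r) ^ 2 + 1) + (1 / ((1 + r) ^ 2 + 1)) ^ 3 / 3) * (1 + (1 + r) / 2) -
      (1 / ((1 + r) ^ 2 + 2) + 1 / (2 * (1 + r)) - (1 + r) / (2 * ((1 + r) ^ 2 + 2) ^ 2)
        + (1 + r) ^ 2 / (3 * ((1 + r) ^ 2 + 2) ^ 3))
      = (29 + 222 * r + 528 * r ^ 2 + 778 * r ^ 3 + 773 * r ^ 4 + 560 * r ^ 5 + 294 * r ^ 6
          + 112 * r ^ 7 + 28 * r ^ 8 + 4 * r ^ 9)
        / (6 * (1 + r) * ((1 + r) ^ 2 + 1) ^ 3 * ((1 + r) ^ 2 + 2) ^ 3) := by
    have h1 : (1 + r) ≠ 0 := by positivity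
    have h2 : ((1 + r) ^ 2 + 1) ≠ 0 := by positivity
    have h3 : ((1 + r) ^ 2 + 2) ≠ 0 := by positivity
    field_simp
    ring
  rw [this]
  positivity

/-- (B) -/
lemma cg_B (N : ℝ) (hN : 3 ≤ N) (t : ℝ) (ht0 : 0 ≤ t) (ht : t ≤ √(N - 2)) :
    cg N (-t) ≤ - ck N * t ^ 2 := by
  have h2 : 0 < N - 2 := by linarith
  have h0 : 0 < N := by linarith
  set q := √(N - 2) with hq
  have hq2 : q ^ 2 = N - 2 := Real.sq_sqrt h2.le
  have hq1 : 1 ≤ q := by
    rw [hq, Real.one_le_sqrt]; linarith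
  have hNq : N = q ^ 2 + 2 := by linarith
  have hck := ck_nonneg N hN
  have hca := ca_lb N hN
  have hkp := key_poly q hq1
  have hN1 : N - 1 = q ^ 2 + 1 := by linarith
  rw [hN1] at hca
  have hl := log_one_add_le (t / N) (by positivity)
  unfold cg
  have e1 : (1 : ℝ) - -t / N = 1 + t / N := by ring
  rw [e1]
  -- bracket
  have hbr : 1 / N - ca N + (ck N - 1 / (2 * N ^ 2)) * t + t ^ 2 / (3 * N ^ 3) ≤ 0 := by
    have h3 : 1 / N - ca N + (ck N - 1 / (2 * N ^ 2)) * t + t ^ 2 / (3 * N ^ 3)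
        ≤ 1 / N - ca N + (ck N - 1 / (2 * N ^ 2)) * q + q ^ 2 / (3 * N ^ 3) := by
      have : 0 ≤ ck N - 1 / (2 * N ^ 2) := by linarith
      gcongr
    have h4 : 1 / N - ca N + (ck N - 1 / (2 * N ^ 2)) * q + q ^ 2 / (3 * N ^ 3)
        = (1 / (q ^ 2 + 2) + 1 / (2 * q) - q / (2 * (q ^ 2 + 2) ^ 2) + q ^ 2 / (3 * (q ^ 2 + 2) ^ 3))
          - ca N * (1 + q / 2) := by
      have hck' : ck N = (1 / q ^ 2 - ca N) / 2 := by unfold ck; rw [hq2]
      rw [hck', ← hNq]
      have hqp : 0 < q := by linarith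
      field_simp
      ring
    have h5 : (1 / (q ^ 2 + 1) + (1 / (q ^ 2 + 1)) ^ 3 / 3) * (1 + q / 2) ≤ ca N * (1 + q / 2) := by
      have : 0 ≤ 1 + q / 2 := by positivity
      gcongr
    linarith
  have e2 : t / N - (t / N) ^ 2 / 2 + (t / N) ^ 3 / 3 + ca N * -t + ck N * t ^ 2
      = t * (1 / N - ca N + (ck N - 1 / (2 * N ^ 2)) * t + t ^ 2 / (3 * N ^ 3)) := by
    field_simp
    ring
  have e3 : t * (1 / N - ca N + (ck N - 1 / (2 * N ^ 2)) * t + t ^ 2 / (3 * N ^ 3)) ≤ 0 :=
    mul_nonpos_of_nonneg_of_nonpos ht0 hbr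
  nlinarith

/-- (C) -/
lemma cg_C (N : ℝ) (hN : 3 ≤ N) (t : ℝ) (ht : √(N - 2) ≤ t) :
    cg N (-t) ≤ - ck N * (N - 2) := by
  have h2 : 0 < N - 2 := by linarith
  have h0 : 0 < N := by linarith
  set q := √(N - 2) with hq
  have hq2 : q ^ 2 = N - 2 := Real.sq_sqrt h2.le
  have hq0 : 0 ≤ q := Real.sqrt_nonneg _
  have ht0 : 0 ≤ t := le_trans hq0 ht
  have hB := cg_B N hN q hq0 le_rfl
  rw [hq2] at hB
  have hinv := inv_le_ca N hN
  unfold cg at hB ⊢
  have e1 : (1 : ℝ) - -t / N = 1 + t / N := by ring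
  have e2 : (1 : ℝ) - -q / N = 1 + q / N := by ring
  rw [e1]; rw [e2] at hB
  have h3 : log (1 + t / N) - log (1 + q / N) ≤ (t - q) / N := by
    rw [← log_div (by positivity) (by positivity)]
    have h4 := log_le_sub_one_of_pos (x := (1 + t / N) / (1 + q / N)) (by positivity)
    have h5 : (1 + t / N) / (1 + q / N) - 1 = (t - q) / (N + q) := by field_simp; ring
    have h6 : (t - q) / (N + q) ≤ (t - q) / N := by
      apply div_le_div_of_nonneg_left (by linarith) h0 (by linarith)
    linarith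
  have h7 : (t - q) / N ≤ ca N * (t - q) := by
    have : (t - q) / N = (1 / N) * (t - q) := by ring
    rw [this]
    have : 0 ≤ t - q := by linarith
    gcongr
  linarith

/-- (D) -/
lemma cg_D (N : ℝ) (hN : 3 ≤ N) (t : ℝ) (ht : 0 ≤ t) : cg N (-t) ≤ 0 := by
  have h0 : 0 < N := by linarith
  have hinv := inv_le_ca N hN
  unfold cg
  have e1 : (1 : ℝ) - -t / N = 1 + t / N := by ring
  rw [e1]
  have h4 := log_le_sub_one_of_pos (x := 1 + t / N) (by positivity)
  have h7 : t / N ≤ ca N * t := by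
    have : t / N = (1 / N) * t := by ring
    rw [this]
    gcongr
  linarith

lemma cg_E (N : ℝ) (hN : 3 ≤ N) (y : ℝ) (hy : y < N) : cg N y ≤ ck N := by
  have h0 : 0 < N := by linarith
  have hck := ck_nonneg N hN
  have hck0 : 0 ≤ ck N := le_trans (by positivity) hck
  rcases le_total 0 y with h | h
  · have := cg_A N hN y h hy
    nlinarith [sq_nonneg (y - 1)]
  · have := cg_D N hN (-y) (by linarith)
    rw [neg_neg] at this
    linarith

/-- The summation inequality: `∑ g(y_i) ≤ 0`. -/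
theorem sum_cg_le (ι : Type*) [Fintype ι] [DecidableEq ι] (y : ι → ℝ)
    (hN : 3 ≤ (Fintype.card ι : ℝ)) (hlt : ∀ i, y i < (Fintype.card ι : ℝ))
    (i0 : ι) (hi0 : y i0 = 0)
    (hX : 2 * ∑ i, max 0 (- y i) ≤ ∑ i, y i * (y i - 2)) :
    ∑ i, cg (Fintype.card ι : ℝ) (y i) ≤ 0 := by
  set N : ℝ := (Fintype.card ι : ℝ) with hNdef
  have hck0 : 0 ≤ ck N := le_trans (by positivity) (ck_nonneg N hN)
  by_cases hbig : ∃ j, y j < - √(N - 2)
  · obtain ⟨j, hj⟩ := hbig
    have hj0 : y j < 0 := lt_of_lt_of_le hj (by have := Real.sqrt_nonneg (N - 2); linarith)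
    have hij : j ≠ i0 := by rintro rfl; linarith
    have h1 : ∑ i, cg N (y i) = cg N (y j) + (cg N (y i0) + ∑ i ∈ (Finset.univ.erase j).erase i0, cg N (y i)) := by
      rw [Finset.add_sum_erase _ (fun i => cg N (y i)) (by simp [hij.symm]), Finset.add_sum_erase _ (fun i => cg N (y i)) (by simp)]
    have h2 : ∑ i ∈ (Finset.univ.erase j).erase i0, cg N (y i) ≤ (N - 2) * ck N := by
      have h3 : ∑ i ∈ (Finset.univ.erase j).erase i0, cg N (y i)
          ≤ ((Finset.univ.erase j).erase i0).card • ck N :=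
        Finset.sum_le_card_nsmul _ _ _ (fun i _ => cg_E N hN (y i) (hlt i))
      have h4 : (((Finset.univ.erase j).erase i0).card : ℝ) = N - 2 := by
        have h5 : ((Finset.univ.erase j).erase i0).card + 2 = Fintype.card ι := by
          have h6 : i0 ∈ Finset.univ.erase j := by simp [hij.symm]
          have h7 := Finset.card_erase_add_one h6
          have h8 := Finset.card_erase_add_one (Finset.mem_univ j)
          rw [Finset.card_univ] at h8
          omega
        rw [hNdef, ← h5]; push_cast; ring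
      rw [nsmul_eq_mul, h4] at h3
      exact h3
    have h5 : cg N (y i0) = 0 := by rw [hi0]; simp [cg]
    have h6 := cg_C N hN (- y j) (by linarith)
    rw [neg_neg] at h6
    rw [h1]; linarith
  · push Not at hbig
    have h1 : ∀ i, cg N (y i) ≤ - ck N * (y i * (y i - 2)) + ck N * (2 * max 0 (- y i)) := by
      intro i
      rcases le_total 0 (y i) with h | h
      · have := cg_A N hN (y i) h (hlt i)
        have h2 : max 0 (- y i) = 0 := max_eq_left (by linarith)
        rw [h2]; linarith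
      · have := cg_B N hN (- y i) (by linarith) (by have := hbig i; linarith)
        rw [neg_neg] at this
        have h2 : max 0 (- y i) = - y i := max_eq_right (by linarith)
        rw [h2]; nlinarith
    calc ∑ i, cg N (y i) ≤ ∑ i, (- ck N * (y i * (y i - 2)) + ck N * (2 * max 0 (- y i))) :=
          Finset.sum_le_sum (fun i _ => h1 i)
      _ = - ck N * ∑ i, y i * (y i - 2) + ck N * (2 * ∑ i, max 0 (- y i)) := by
          rw [Finset.sum_add_distrib, ← Finset.mul_sum, ← Finset.mul_sum, Finset.mul_sum _ _ 2]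
      _ ≤ 0 := by nlinarith

end Pool.Agent.H23
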