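import Mathlib
import Pool.Agent.H23.SpAn

set_option autoImplicit false

namespace Pool.Agent.H23

open Matrix

variable {V : Type*} [Fintype V] [DecidableEq V]

/-- weighted Laplacian -/
def lap (u : V → V → ℝ) : Matrix V V ℝ :=
  Matrix.of fun i j => (if i = j then ∑ k, u i k else 0) - u i j

lemma lap_quad (u : V → V → ℝ) (hu : ∀ i j, u i j = u j i) (x : V → ℝ) :
    x ⬝ᵥ (lap u *ᵥ x) = (1 / 2) * ∑ i, ∑ j, u i j * (x i - x j) ^ 2 := by
  have h1 : x ⬝ᵥ (lap u *ᵥ x) = ∑ i, ∑ j, (u i j * x i ^ 2 - u i j * (x i * x j)) := by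
    simp only [dotProduct, mulVec, lap, Matrix.of_apply]
    refine Finset.sum_congr rfl fun i _ => ?_
    have : ∑ j, ((if i = j then ∑ k, u i k else 0) - u i j) * x j
        = (∑ k, u i k) * x i - ∑ j, u i j * x j := by
      simp only [sub_mul, Finset.sum_sub_distrib, ite_mul, zero_mul]
      rw [Finset.sum_ite_eq]; simp
    rw [this, mul_sub, Finset.sum_sub_distrib]
    congr 1
    · rw [Finset.sum_mul, Finset.mul_sum]
      exact Finset.sum_congr rfl fun j _ => by ring
    · rw [Finset.mul_sum]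
      exact Finset.sum_congr rfl fun j _ => by ring
  have h2 : ∑ i, ∑ j, u i j * (x i - x j) ^ 2
      = ∑ i, ∑ j, u i j * x i ^ 2 + ∑ i, ∑ j, u i j * x j ^ 2 - 2 * ∑ i, ∑ j, u i j * (x i * x j) := by
    rw [Finset.mul_sum, ← Finset.sum_add_distrib, ← Finset.sum_sub_distrib]
    refine Finset.sum_congr rfl fun i _ => ?_
    rw [Finset.mul_sum, ← Finset.sum_add_distrib, ← Finset.sum_sub_distrib]
    exact Finset.sum_congr rfl fun j _ => by ring
  have h3 : ∑ i, ∑ j, u i j * x j ^ 2 = ∑ i, ∑ j, u i j * x i ^ 2 := by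
    rw [Finset.sum_comm]
    exact Finset.sum_congr rfl fun i _ => Finset.sum_congr rfl fun j _ => by rw [hu]
  rw [h1, h2, h3]
  simp only [Finset.sum_sub_distrib]
  ring

lemma lap_quad_nonneg (u : V → V → ℝ) (hu : ∀ i j, u i j = u j i) (hn : ∀ i j, 0 ≤ u i j)
    (x : V → ℝ) : 0 ≤ x ⬝ᵥ (lap u *ᵥ x) := by
  rw [lap_quad u hu x]
  have : 0 ≤ ∑ i, ∑ j, u i j * (x i - x j) ^ 2 :=
    Finset.sum_nonneg fun i _ => Finset.sum_nonneg fun j _ => mul_nonneg (hn i j) (sq_nonneg _)
  linarith

lemma diag_exists (C : Matrix V V ℝ) (hC : C.IsSymm) :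
    ∃ (U : Matrix V V ℝ) (y : V → ℝ), U * Uᵀ = 1 ∧ Uᵀ * U = 1 ∧ Uᵀ * C * U = diagonal y := by
  have hH : C.IsHermitian := by
    rw [Matrix.IsHermitian, conjTranspose_eq_transpose_of_trivial]; exact hC
  refine ⟨(hH.eigenvectorUnitary : Matrix V V ℝ), hH.eigenvalues, ?_, ?_, ?_⟩
  · have := (Matrix.mem_unitaryGroup_iff).1 hH.eigenvectorUnitary.2
    rwa [star_eq_conjTranspose, conjTranspose_eq_transpose_of_trivial] at this
  · have := (Matrix.mem_unitaryGroup_iff').1 hH.eigenvectorUnitary.2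
    rwa [star_eq_conjTranspose, conjTranspose_eq_transpose_of_trivial] at this
  · have := hH.conjStarAlgAut_star_eigenvectorUnitary
    rw [Unitary.conjStarAlgAut_star_apply, star_eq_conjTranspose,
      conjTranspose_eq_transpose_of_trivial] at this
    rw [this]
    rfl

lemma conj_diag (U Q : Matrix V V ℝ) (i : V) :
    (Uᵀ * Q * U) i i = (fun k => U k i) ⬝ᵥ (Q *ᵥ (fun k => U k i)) := by
  rw [Matrix.mul_assoc, Matrix.mul_apply]
  simp only [dotProduct, transpose_apply]
  refine Finset.sum_congr rfl fun k _ => ?_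
  congr 1

lemma conj_trace (U Q : Matrix V V ℝ) (hU : U * Uᵀ = 1) :
    ∑ i, (Uᵀ * Q * U) i i = Q.trace := by
  have : (Uᵀ * Q * U).trace = Q.trace := by
    rw [Matrix.mul_assoc, Matrix.trace_mul_comm, Matrix.mul_assoc, hU, Matrix.mul_one]
  rw [← this]; rfl

/-- determinant of `N - C` via a diagonalisation. -/
lemma det_sub (U C : Matrix V V ℝ) (y : V → ℝ) (hU : U * Uᵀ = 1) (hU' : Uᵀ * U = 1)
    (hD : Uᵀ * C * U = diagonal y) (N : ℝ) :
    (N • (1 : Matrix V V ℝ) - C).det = ∏ i, (N - y i) := by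
  have h1 : Uᵀ * (N • (1 : Matrix V V ℝ) - C) * U = diagonal (fun i => N - y i) := by
    rw [Matrix.mul_sub, Matrix.sub_mul, hD, Matrix.mul_smul, Matrix.mul_one, Matrix.smul_mul, hU']
    ext i j
    by_cases h : i = j
    · subst h; simp
    · simp [h]
  have h2 : (Uᵀ * (N • (1 : Matrix V V ℝ) - C) * U).det = (N • (1 : Matrix V V ℝ) - C).det := by
    rw [Matrix.det_mul, Matrix.det_mul, mul_comm, ← mul_assoc, ← Matrix.det_mul, hU, Matrix.det_one,
      one_mul]
  rw [← h2, h1, Matrix.det_diagonal]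

lemma trace_C (U C : Matrix V V ℝ) (y : V → ℝ) (hU : U * Uᵀ = 1)
    (hD : Uᵀ * C * U = diagonal y) : ∑ i, y i = C.trace := by
  rw [← conj_trace U C hU, hD]
  simp

lemma trace_C2 (U C : Matrix V V ℝ) (y : V → ℝ) (hU : U * Uᵀ = 1)
    (hD : Uᵀ * C * U = diagonal y) : ∑ i, y i ^ 2 = (C * C).trace := by
  rw [← conj_trace U (C * C) hU]
  have : Uᵀ * (C * C) * U = (Uᵀ * C * U) * (Uᵀ * C * U) := by
    calc Uᵀ * (C * C) * U = Uᵀ * C * 1 * C * U := by simp only [Matrix.mul_one, Matrix.mul_assoc]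
      _ = Uᵀ * C * (U * Uᵀ) * C * U := by rw [hU]
      _ = _ := by simp only [Matrix.mul_assoc]
  rw [this, hD]
  refine Finset.sum_congr rfl fun i _ => ?_
  simp [sq]

/-- If `C = P - Q` with `P`, `Q` having nonnegative quadratic forms, the negative eigenvalues of
`C` are controlled by the trace of `Q`. -/
lemma neg_le_trace (U C P Q : Matrix V V ℝ) (y : V → ℝ) (hU : U * Uᵀ = 1)
    (hD : Uᵀ * C * U = diagonal y) (hC : C = P - Q)
    (hP : ∀ x : V → ℝ, 0 ≤ x ⬝ᵥ (P *ᵥ x)) (hQ : ∀ x : V → ℝ, 0 ≤ x ⬝ᵥ (Q *ᵥ x)) :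
    ∑ i, max 0 (- y i) ≤ Q.trace := by
  rw [← conj_trace U Q hU]
  refine Finset.sum_le_sum fun i _ => ?_
  have hQi : 0 ≤ (Uᵀ * Q * U) i i := by rw [conj_diag]; exact hQ _
  have hPi : 0 ≤ (Uᵀ * P * U) i i := by rw [conj_diag]; exact hP _
  have : y i = (Uᵀ * P * U) i i - (Uᵀ * Q * U) i i := by
    have h1 : (Uᵀ * C * U) i i = y i := by rw [hD]; simp
    rw [← h1, hC, Matrix.mul_sub, Matrix.sub_mul]; rfl
  apply max_le hQi
  linarith

/-- the integer complementary weights -/
def cc (w : V → V → ℕ) (i j : V) : ℤ := (if i = j then 0 else 1) - (w i j : ℤ)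

lemma lap_sub (u v : V → V → ℝ) : lap (fun i j => u i j - v i j) = lap u - lap v := by
  ext i j
  simp only [lap, Matrix.of_apply, Matrix.sub_apply]
  by_cases h : i = j
  · simp [h, Finset.sum_sub_distrib]; ring
  · simp [h]; ring

lemma lapJ_eq (w : V → V → ℕ) (hd : ∀ i, w i i = 0) :
    (Matrix.of fun i j => lap (fun a b => (w a b : ℝ)) i j + 1)
      = (Fintype.card V : ℝ) • (1 : Matrix V V ℝ) - lap (fun a b => (cc w a b : ℝ)) := by
  ext i j
  simp only [lap, Matrix.of_apply, Matrix.sub_apply, Matrix.smul_apply, Matrix.one_apply,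
    smul_eq_mul, cc]
  by_cases h : i = j
  · subst h
    simp only [if_true, hd]
    push_cast
    have : ∑ k, ((if i = k then (0:ℝ) else 1) - (w i k : ℝ))
        = (Fintype.card V : ℝ) - 1 - ∑ k, (w i k : ℝ) := by
      rw [Finset.sum_sub_distrib]
      congr 1
      have h2 : ∀ k, (if i = k then (0:ℝ) else 1) = 1 - (if i = k then 1 else 0) := by
        intro k; split_ifs <;> norm_num
      simp only [h2]
      rw [Finset.sum_sub_distrib, Finset.sum_ite_eq]
      simp
    rw [this]; ring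
  · simp only [if_neg h]
    push_cast
    ring

theorem det_bound (hN : 3 ≤ Fintype.card V) (w : V → V → ℕ) (hw : ∀ i j, w i j = w j i)
    (hd : ∀ i, w i i = 0) (s : ℕ)
    (hs : ∑ i, ∑ j, cc w i j = 2 * (s : ℤ)) :
    (Matrix.of fun i j => lap (fun a b => (w a b : ℝ)) i j + 1).det
      ≤ (Fintype.card V : ℝ) ^ (Fintype.card V) * (((Fintype.card V : ℝ) - 2) / Fintype.card V) ^ s := by
  set N : ℝ := (Fintype.card V : ℝ) with hNdef
  have hN3 : 3 ≤ N := by rw [hNdef]; exact_mod_cast hN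
  have h0 : 0 < N := by linarith
  have h2 : 0 < N - 2 := by linarith
  have hcs : ∀ i j, cc w i j = cc w j i := by
    intro i j; simp only [cc, hw i j, eq_comm]
  have hcd : ∀ i, cc w i i = 0 := by intro i; simp [cc, hd]
  have hc1 : ∀ i j, cc w i j ≤ 1 := by
    intro i j; simp only [cc]; split_ifs <;> have := Int.natCast_nonneg (w i j) <;> omega
  set C : Matrix V V ℝ := lap (fun a b => (cc w a b : ℝ)) with hCdef
  have hCsymm : C.IsSymm := by
    ext i j
    simp only [hCdef, lap, Matrix.transpose_apply, Matrix.of_apply]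
    by_cases h : i = j
    · simp [h]
    · rw [if_neg h, if_neg (Ne.symm h), hcs]
  obtain ⟨U, y, hU, hU', hD⟩ := diag_exists C hCsymm
  rw [lapJ_eq w hd, det_sub U C y hU hU' hD]
  -- eigenvalues ≤ N
  have hle : ∀ i, y i ≤ N := by
    intro i
    have h1 : 0 ≤ (Uᵀ * (Matrix.of fun i j => lap (fun a b => (w a b : ℝ)) i j + 1) * U) i i := by
      rw [conj_diag]
      set x : V → ℝ := fun k => U k i
      have h3 : x ⬝ᵥ ((Matrix.of fun i j => lap (fun a b => (w a b : ℝ)) i j + 1) *ᵥ x)
          = x ⬝ᵥ (lap (fun a b => (w a b : ℝ)) *ᵥ x) + (∑ k, x k) ^ 2 := by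
        simp only [dotProduct, mulVec, Matrix.of_apply, add_mul, one_mul, Finset.sum_add_distrib,
          mul_add]
        rw [← Finset.sum_mul, sq]
      rw [h3]
      have := lap_quad_nonneg (fun a b => (w a b : ℝ)) (fun a b => by rw [hw]) (fun a b => by positivity) x
      positivity
    rw [lapJ_eq w hd] at h1
    have h4 : (Uᵀ * (N • (1 : Matrix V V ℝ) - C) * U) i i = N - y i := by
      rw [Matrix.mul_sub, Matrix.sub_mul, hD, Matrix.mul_smul, Matrix.mul_one, Matrix.smul_mul, hU']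
      simp
    rw [h4] at h1
    linarith
  by_cases heq : ∃ i, y i = N
  · obtain ⟨i, hi⟩ := heq
    have : ∏ i, (N - y i) = 0 := Finset.prod_eq_zero (Finset.mem_univ i) (by rw [hi]; ring)
    rw [this]; positivity
  push Not at heq
  have hlt : ∀ i, y i < N := fun i => lt_of_le_of_ne (hle i) (heq i)
  -- a zero eigenvalue
  have hdet0 : C.det = 0 := by
    have : C *ᵥ (fun _ => (1:ℝ)) = 0 := by
      ext i
      simp only [hCdef, lap, mulVec, dotProduct, Matrix.of_apply, mul_one, Pi.zero_apply]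
      rw [Finset.sum_sub_distrib, Finset.sum_ite_eq]
      simp
    apply Matrix.exists_mulVec_eq_zero_iff.1
    refine ⟨fun _ => 1, ?_, this⟩
    intro h
    have hne : Nonempty V := Fintype.card_pos_iff.1 (by omega)
    obtain ⟨v⟩ := hne
    have := congrFun h v
    norm_num at this
  have hi0 : ∃ i0, y i0 = 0 := by
    have h1 := det_sub U C y hU hU' hD 0
    simp only [zero_smul, zero_sub] at h1
    rw [Matrix.det_neg, hdet0, mul_zero] at h1
    have := Finset.prod_eq_zero_iff.1 h1.symm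
    obtain ⟨i, _, hi⟩ := this
    exact ⟨i, by linarith⟩
  obtain ⟨i0, hi0⟩ := hi0
  -- trace identities
  have htrC : C.trace = 2 * s := by
    have : C.trace = ((∑ i, ∑ j, cc w i j : ℤ) : ℝ) := by
      simp only [Matrix.trace, Matrix.diag, hCdef, lap, Matrix.of_apply, if_true, hcd]
      push_cast; simp
    rw [this, hs]; push_cast; ring
  have hsum : ∑ i, y i = 2 * s := by rw [trace_C U C y hU hD, htrC]
  -- P and Q
  set Q : Matrix V V ℝ := lap (fun a b => ((max 0 (- cc w a b) : ℤ) : ℝ)) with hQdef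
  have hPQ : C = lap (fun a b => ((max 0 (cc w a b) : ℤ) : ℝ)) - Q := by
    rw [hQdef, ← lap_sub, hCdef]
    congr 1
    ext a b
    rw [← Int.cast_sub]
    congr 1
    rcases le_total 0 (cc w a b) with h | h
    · rw [max_eq_right h, max_eq_left (by omega)]; ring
    · rw [max_eq_left h, max_eq_right (by omega)]; ring
  have hneg : ∑ i, max 0 (- y i) ≤ Q.trace := by
    apply neg_le_trace U C _ Q y hU hD hPQ
    · intro x
      apply lap_quad_nonneg
      · intro i j; rw [hcs]
      · intro i j; exact_mod_cast le_max_left _ _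
    · intro x
      apply lap_quad_nonneg
      · intro i j; rw [hcs]
      · intro i j; exact_mod_cast le_max_left _ _
  have hX : 2 * ∑ i, max 0 (- y i) ≤ ∑ i, y i * (y i - 2) := by
    have h1 : ∑ i, y i * (y i - 2) = (C * C).trace - 2 * C.trace := by
      rw [← trace_C2 U C y hU hD, ← trace_C U C y hU hD, Finset.mul_sum, ← Finset.sum_sub_distrib]
      exact Finset.sum_congr rfl fun i _ => by ring
    rw [h1]
    -- integer computation
    have h3 : (C * C).trace = ((∑ i, ((∑ k, cc w i k) ^ 2 + ∑ j, (cc w i j) ^ 2) : ℤ) : ℝ) := by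
      push_cast
      simp only [Matrix.trace, Matrix.diag, Matrix.mul_apply]
      refine Finset.sum_congr rfl fun i _ => ?_
      have h4 : ∀ j, C i j * C j i = (if i = j then (∑ k, (cc w i k : ℝ)) ^ 2 else 0) + (cc w i j : ℝ) ^ 2 := by
        intro j
        simp only [hCdef, lap, Matrix.of_apply]
        by_cases h : i = j
        · subst h; simp [hcd]; ring
        · rw [if_neg h, if_neg (Ne.symm h), if_neg h, hcs j i]; ring
      simp only [h4]
      rw [Finset.sum_add_distrib, Finset.sum_ite_eq]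
      simp
    have h5 : C.trace = ((∑ i, ∑ j, cc w i j : ℤ) : ℝ) := by
      simp only [Matrix.trace, Matrix.diag, hCdef, lap, Matrix.of_apply, if_true, hcd]
      push_cast; simp
    have h6 : Q.trace = ((∑ i, ∑ j, max 0 (- cc w i j) : ℤ) : ℝ) := by
      simp only [Matrix.trace, Matrix.diag, hQdef, lap, Matrix.of_apply, if_true, hcd]
      push_cast; simp
    have h7 : 2 * (∑ i, ∑ j, max 0 (- cc w i j))
        ≤ (∑ i, ((∑ k, cc w i k) ^ 2 + ∑ j, (cc w i j) ^ 2)) - 2 * ∑ i, ∑ j, cc w i j := by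
      rw [Finset.mul_sum, Finset.mul_sum, ← Finset.sum_sub_distrib]
      refine Finset.sum_le_sum fun i _ => ?_
      have h8 : ∑ k, cc w i k ≤ (∑ k, cc w i k) ^ 2 := Int.le_self_sq _
      have h9 : 2 * ∑ j, max 0 (- cc w i j) ≤ ∑ j, (cc w i j) ^ 2 - ∑ j, cc w i j := by
        rw [Finset.mul_sum, ← Finset.sum_sub_distrib]
        refine Finset.sum_le_sum fun j _ => ?_
        rcases le_total 0 (cc w i j) with h | h
        · rw [max_eq_left (by omega)]
          have := Int.le_self_sq (cc w i j)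
          linarith
        · rw [max_eq_right (by omega)]
          rcases eq_or_lt_of_le h with h' | h'
          · rw [h']; norm_num
          · nlinarith
      linarith
    have h10 : 2 * Q.trace ≤ (C * C).trace - 2 * C.trace := by
      rw [h3, h5, h6]
      exact_mod_cast h7
    linarith
  have hfin := sum_cg_le V y hN3 hlt i0 hi0 hX
  -- conclude
  have hprod : 0 < ∏ i, (1 - y i / N) := by
    apply Finset.prod_pos
    intro i _
    have := hlt i
    rw [sub_pos, div_lt_one h0]; exact this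
  have hlog : Real.log (∏ i, (1 - y i / N)) ≤ s * Real.log ((N - 2) / N) := by
    rw [Real.log_prod (fun i _ => by
      have := hlt i
      have : 0 < 1 - y i / N := by rw [sub_pos, div_lt_one h0]; exact this
      exact this.ne')]
    simp only [cg, Finset.sum_add_distrib] at hfin
    rw [← Finset.mul_sum, hsum] at hfin
    have h1 : Real.log ((N - 2) / N) = - (2 * ca N) := by
      have : (N - 2) / N = (N / (N - 2))⁻¹ := by rw [inv_div]
      rw [this, Real.log_inv]; unfold ca; ring
    rw [h1]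
    linarith
  have hle2 : ∏ i, (1 - y i / N) ≤ ((N - 2) / N) ^ s := by
    rw [← Real.log_le_log_iff hprod (by positivity), Real.log_pow]
    exact hlog
  have h9 : ∏ i, (N - y i) = N ^ (Fintype.card V) * ∏ i, (1 - y i / N) := by
    rw [← Finset.card_univ, ← Finset.prod_const, ← Finset.prod_mul_distrib]
    refine Finset.prod_congr rfl fun i _ => ?_
    field_simp
  rw [h9]
  gcongr

end Pool.Agent.H23
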