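import Mathlib
import Pool.Agent.H23.Spec
import Pool.Agent.H23.DJ

set_option autoImplicit false

namespace Pool.Agent.H23

open Matrix

section
variable {V : Type*} [Fintype V] [DecidableEq V]

lemma lap_row (u : V → V → ℝ) (i : V) : ∑ j, lap u i j = 0 := by
  simp only [lap, Matrix.of_apply, Finset.sum_sub_distrib]
  rw [Finset.sum_ite_eq]; simp

lemma lap_symm (u : V → V → ℝ) (hu : ∀ i j, u i j = u j i) (i j : V) : lap u i j = lap u j i := by
  simp only [lap, Matrix.of_apply]
  by_cases h : i = j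
  · subst h; rfl
  · rw [if_neg h, if_neg (Ne.symm h), hu]

lemma lap_col (u : V → V → ℝ) (hu : ∀ i j, u i j = u j i) (j : V) : ∑ i, lap u i j = 0 := by
  rw [← lap_row u j]
  exact Finset.sum_congr rfl fun i _ => lap_symm u hu i j

theorem det_eq (hN : 3 ≤ Fintype.card V) (w : V → V → ℕ)
    (hd : ∀ i, w i i = 0) (s : ℕ)
    (hs : ∑ i, ∑ j, cc w i j = 2 * (s : ℤ)) (p : V → V) (hp : ∀ i, p (p i) = i)
    (hlap : ∀ i j, lap (fun a b => (cc w a b : ℝ)) i j
      = (if i = j then 1 else 0) - (if p i = j then 1 else 0)) :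
    (Matrix.of fun i j => lap (fun a b => (w a b : ℝ)) i j + 1).det
      = (Fintype.card V : ℝ) ^ (Fintype.card V) * (((Fintype.card V : ℝ) - 2) / Fintype.card V) ^ s := by
  set N : ℝ := (Fintype.card V : ℝ) with hNdef
  have hN3 : 3 ≤ N := by rw [hNdef]; exact_mod_cast hN
  have h0 : 0 < N := by linarith
  have hcd : ∀ i, cc w i i = 0 := by intro i; simp [cc, hd]
  set C : Matrix V V ℝ := lap (fun a b => (cc w a b : ℝ)) with hCdef
  have hC1 : C = 1 - Matrix.of (fun i j => if p i = j then (1:ℝ) else 0) := by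
    ext i j; rw [hlap]; simp [Matrix.one_apply]
  have hPP : (Matrix.of (fun i j : V => if p i = j then (1:ℝ) else 0))
      * (Matrix.of (fun i j : V => if p i = j then (1:ℝ) else 0)) = 1 := by
    ext i j
    rw [Matrix.mul_apply]
    simp only [Matrix.of_apply, ite_mul, one_mul, zero_mul]
    rw [Finset.sum_ite_eq]
    simp [hp, Matrix.one_apply]
  have hC2 : C * C = 2 • C := by
    have h1 : ∀ P : Matrix V V ℝ, (1 - P) * (1 - P) = 1 - P - P + P * P := by
      intro P; noncomm_ring
    rw [hC1, h1, hPP, two_smul]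
    abel
  have hCsymm : C.IsSymm := by
    ext i j
    rw [Matrix.transpose_apply, hlap, hlap]
    congr 1
    · simp [eq_comm]
    · have : (p j = i) ↔ (p i = j) := by
        constructor
        · rintro rfl; exact hp j
        · rintro rfl; exact hp i
      simp [this]
  obtain ⟨U, y, hU, hU', hD⟩ := diag_exists C hCsymm
  rw [lapJ_eq w hd, det_sub U C y hU hU' hD]
  have hy : ∀ i, y i = 0 ∨ y i = 2 := by
    intro i
    have h1 : Uᵀ * (C * C) * U = (Uᵀ * C * U) * (Uᵀ * C * U) := by
      calc Uᵀ * (C * C) * U = Uᵀ * C * 1 * C * U := by simp only [Matrix.mul_one, Matrix.mul_assoc]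
        _ = Uᵀ * C * (U * Uᵀ) * C * U := by rw [hU]
        _ = _ := by simp only [Matrix.mul_assoc]
    have h2 : Uᵀ * (C * C) * U = 2 • (Uᵀ * C * U) := by
      rw [hC2]; simp only [Matrix.mul_smul, Matrix.smul_mul]
    rw [h1, hD] at h2
    have h3 := congrFun (congrFun h2 i) i
    rw [Matrix.diagonal_mul_diagonal, Matrix.diagonal_apply_eq, Matrix.smul_apply,
      Matrix.diagonal_apply_eq, nsmul_eq_mul] at h3
    push_cast at h3
    have h4 : y i * (y i - 2) = 0 := by linarith
    rcases mul_eq_zero.1 h4 with h | h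
    · left; exact h
    · right; linarith
  have htrC : C.trace = 2 * s := by
    have : C.trace = ((∑ i, ∑ j, cc w i j : ℤ) : ℝ) := by
      simp only [Matrix.trace, Matrix.diag, hCdef, lap, Matrix.of_apply, if_true, hcd]
      push_cast; simp
    rw [this, hs]; push_cast; ring
  have hsum : ∑ i, y i = 2 * s := by rw [trace_C U C y hU hD, htrC]
  set k : V → ℕ := fun i => if y i = 2 then 1 else 0 with hk
  have hyk : ∀ i, y i = 2 * (k i : ℝ) := by
    intro i
    rcases hy i with h | h
    · simp [hk, h]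
    · simp [hk, h]
  have hks : ∑ i, k i = s := by
    have : (2:ℝ) * ((∑ i, k i : ℕ) : ℝ) = 2 * s := by
      rw [← hsum]; push_cast; rw [Finset.mul_sum]
      exact Finset.sum_congr rfl fun i _ => (hyk i).symm
    have h2 : ((∑ i, k i : ℕ) : ℝ) = s := by linarith
    exact_mod_cast h2
  have h9 : ∏ i, (N - y i) = N ^ (Fintype.card V) * ∏ i, ((N - 2) / N) ^ (k i) := by
    rw [← Finset.card_univ, ← Finset.prod_const, ← Finset.prod_mul_distrib]
    refine Finset.prod_congr rfl fun i _ => ?_
    rcases hy i with h | h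
    · have : k i = 0 := by simp [hk, h]
      rw [this, h]; simp
    · have : k i = 1 := by simp [hk, h]
      rw [this, h]; field_simp
  rw [h9, Finset.prod_pow_eq_pow_sum, hks]

end

lemma sum_sym2 (n : ℕ) (F : Sym2 (Fin n) → ℤ) (hF : ∀ e, e.IsDiag → F e = 0) :
    ∑ i, ∑ j, F s(i, j) = 2 * ∑ e, F e := by
  have h1 : ∑ i, ∑ j, F s(i, j) = ∑ x : Fin n × Fin n, F (Sym2.mk x.1 x.2) := by
    rw [Fintype.sum_prod_type]
  rw [h1, ← Finset.sum_fiberwise (Finset.univ : Finset (Fin n × Fin n)) (fun x => s(x.1, x.2)),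
    Finset.mul_sum]
  refine Finset.sum_congr rfl fun e _ => ?_
  have h2 : ∑ x : Fin n × Fin n with s(x.1, x.2) = e, F s(x.1, x.2)
      = ((Finset.univ : Finset (Fin n × Fin n)).filter (fun x => s(x.1, x.2) = e)).card • F e := by
    rw [← Finset.sum_const]
    refine Finset.sum_congr rfl fun x hx => ?_
    rw [(Finset.mem_filter.1 hx).2]
  rw [h2]
  induction e using Sym2.ind with
  | _ a b =>
    by_cases hab : a = b
    · rw [hF s(a, b) (by simp [hab])]; simp
    · have h3 : (Finset.univ : Finset (Fin n × Fin n)).filter (fun x => s(x.1, x.2) = s(a, b))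
          = {(a, b), (b, a)} := by
        ext ⟨x, y⟩
        simp [Sym2.eq_iff]
      rw [h3, Finset.card_pair (by simp [hab])]
      simp

end Pool.Agent.H23
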