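import Mathlib

set_option autoImplicit false
open Classical

namespace Pool.Agent.H23

open Matrix

/-- extend `f : Fin m → Fin (m+1)` by `0 ↦ 0`. -/
def ext0 {m : ℕ} (f : Fin m → Fin (m+1)) : Fin (m+1) → Fin (m+1) := Fin.cases 0 f

@[simp] lemma ext0_zero {m : ℕ} (f : Fin m → Fin (m+1)) : ext0 f 0 = 0 := rfl
@[simp] lemma ext0_succ {m : ℕ} (f : Fin m → Fin (m+1)) (i : Fin m) : ext0 f i.succ = f i := rfl

lemma ext0_iter_zero {m : ℕ} (f : Fin m → Fin (m+1)) (k : ℕ) : (ext0 f)^[k] 0 = 0 :=
  Function.iterate_fixed (ext0_zero f) k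

def Acyc {m : ℕ} (f : Fin m → Fin (m+1)) : Prop := ∀ v : Fin (m+1), ∃ k, (ext0 f)^[k] v = 0

/-- the matrix `1 - N_f`. -/
noncomputable def Nf {m : ℕ} (f : Fin m → Fin (m+1)) : Matrix (Fin m) (Fin m) ℝ :=
  Matrix.of fun i j => (if i = j then 1 else 0) - (if f i = j.succ then 1 else 0)

noncomputable def Af {m : ℕ} (f : Fin m → Fin (m+1)) : Matrix (Fin m) (Fin m) ℝ :=
  Matrix.of fun i j => (if f i = j.succ then 1 else 0)

lemma Nf_eq {m : ℕ} (f : Fin m → Fin (m+1)) : Nf f = 1 - Af f := by
  ext i j; simp [Nf, Af, Matrix.one_apply]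

theorem det_expand (m : ℕ) (w : Fin m → Fin (m+1) → ℝ) :
    (Matrix.of fun i j : Fin m => (if i = j then ∑ u : Fin (m+1), w i u else 0) - w i j.succ).det
      = ∑ f : Fin m → Fin (m+1), (∏ i, w i (f i)) * (Nf f).det := by
  have hrow : (Matrix.of fun i j : Fin m =>
      (if i = j then ∑ u : Fin (m+1), w i u else 0) - w i j.succ)
      = fun i => ∑ u : Fin (m+1), w i u • (fun j : Fin m =>
          ((if i = j then 1 else 0) - (if u = j.succ then 1 else 0) : ℝ)) := by
    ext i j
    simp only [Matrix.of_apply, Finset.sum_apply, Pi.smul_apply, smul_eq_mul, mul_sub,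
      Finset.sum_sub_distrib, mul_ite, mul_one, mul_zero]
    congr 1
    · split_ifs <;> simp
    · rw [Finset.sum_ite_eq' ]; simp
  rw [hrow]
  show Matrix.detRowAlternating (fun i => ∑ u : Fin (m+1), w i u • (fun j : Fin m =>
          ((if i = j then 1 else 0) - (if u = j.succ then 1 else 0) : ℝ))) = _
  have h1 := (Matrix.detRowAlternating (n := Fin m) (R := ℝ)).toMultilinearMap.map_sum
    (fun (i : Fin m) (u : Fin (m+1)) => w i u • (fun j : Fin m =>
          ((if i = j then 1 else 0) - (if u = j.succ then 1 else 0) : ℝ)))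
  erw [h1]
  refine Finset.sum_congr rfl fun f _ => ?_
  have h2 := (Matrix.detRowAlternating (n := Fin m) (R := ℝ)).toMultilinearMap.map_smul_univ
    (fun i => w i (f i)) (fun i => (fun j : Fin m =>
          ((if i = j then 1 else 0) - (if f i = j.succ then 1 else 0) : ℝ)))
  erw [h2]
  rfl

lemma Af_pow {m : ℕ} (f : Fin m → Fin (m+1)) (k : ℕ) (i j : Fin m) :
    ((Af f) ^ k) i j = if (ext0 f)^[k] i.succ = j.succ then 1 else 0 := by
  induction k generalizing i with
  | zero => simp [Matrix.one_apply]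
  | succ k ih =>
    rw [pow_succ', Matrix.mul_apply]
    simp only [ih]
    rw [Function.iterate_succ, Function.comp_apply, ext0_succ]
    rcases Fin.eq_zero_or_eq_succ (f i) with h | ⟨l, h⟩
    · rw [h, ext0_iter_zero]
      rw [if_neg (Fin.succ_ne_zero j).symm]
      apply Finset.sum_eq_zero
      intro l _
      simp only [Af, Matrix.of_apply, h]
      rw [if_neg (Fin.succ_ne_zero l).symm]; simp
    · rw [h, Finset.sum_eq_single l]
      · simp [Af, h]
      · intro l' _ hl'
        simp only [Af, Matrix.of_apply, h]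
        rw [if_neg (fun h' => hl' (Fin.succ_injective _ h').symm)]; simp
      · simp

lemma det_Nf_acyc {m : ℕ} (f : Fin m → Fin (m+1)) (hf : Acyc f) : (Nf f).det = 1 := by
  choose k hk using hf
  set K := ∑ v, k v with hK
  have hall : ∀ v, (ext0 f)^[K] v = 0 := by
    intro v
    have hle : k v ≤ K := Finset.single_le_sum (fun _ _ => Nat.zero_le _) (Finset.mem_univ v)
    obtain ⟨r, hr⟩ := Nat.exists_eq_add_of_le hle
    rw [hr, Nat.add_comm (k v) r, Function.iterate_add_apply, hk, ext0_iter_zero]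
  have hnil : IsNilpotent (Af f) := by
    refine ⟨K, ?_⟩
    ext i j
    rw [Af_pow, hall, if_neg (Fin.succ_ne_zero j).symm]; rfl
  have h1 := Matrix.isNilpotent_charpoly_sub_pow_of_isNilpotent hnil
  have h2 : (Af f).charpoly = Polynomial.X ^ Fintype.card (Fin m) := by
    have := h1.eq_zero
    exact sub_eq_zero.1 this
  have h3 := Matrix.eval_charpoly (Af f) 1
  rw [h2] at h3
  simp at h3
  rw [Nf_eq, ← h3]

lemma det_Nf_not {m : ℕ} (f : Fin m → Fin (m+1)) (hf : ¬ Acyc f) : (Nf f).det = 0 := by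
  unfold Acyc at hf
  push Not at hf
  obtain ⟨v, hv⟩ := hf
  apply Matrix.exists_mulVec_eq_zero_iff.1
  refine ⟨fun j => if (∃ k, (ext0 f)^[k] j.succ = 0) then 0 else 1, ?_, ?_⟩
  · intro h
    rcases Fin.eq_zero_or_eq_succ v with h' | ⟨l, h'⟩
    · exact hv 0 (by simp [h'])
    · have := congrFun h l
      simp only [Pi.zero_apply] at this
      rw [if_neg] at this
      · norm_num at this
      · rintro ⟨k, hk⟩
        exact hv k (by rw [h']; exact hk)
  · ext i
    have h1 : (∃ k, (ext0 f)^[k] i.succ = 0) ↔ (∃ k, (ext0 f)^[k] (f i) = 0) := by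
      constructor
      · rintro ⟨k, hk⟩
        cases k with
        | zero => exact absurd hk (Fin.succ_ne_zero i)
        | succ k => exact ⟨k, by rwa [Function.iterate_succ, Function.comp_apply, ext0_succ] at hk⟩
      · rintro ⟨k, hk⟩
        exact ⟨k + 1, by rw [Function.iterate_succ, Function.comp_apply, ext0_succ]; exact hk⟩
    simp only [mulVec, dotProduct, Nf, Matrix.of_apply, sub_mul, Finset.sum_sub_distrib, ite_mul,
      one_mul, zero_mul, Pi.zero_apply]
    rw [Finset.sum_ite_eq]
    simp only [Finset.mem_univ, if_true]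
    rcases Fin.eq_zero_or_eq_succ (f i) with h | ⟨l, h⟩
    · have : ∑ x : Fin m, (if f i = x.succ then (if ∃ k, (ext0 f)^[k] x.succ = 0 then (0:ℝ) else 1) else 0) = 0 := by
        apply Finset.sum_eq_zero
        intro x _
        rw [h, if_neg (Fin.succ_ne_zero x).symm]
      rw [this, if_pos (h1.2 ⟨0, by simp [h]⟩)]; ring
    · have : ∑ x : Fin m, (if f i = x.succ then (if ∃ k, (ext0 f)^[k] x.succ = 0 then (0:ℝ) else 1) else 0)
          = (if ∃ k, (ext0 f)^[k] l.succ = 0 then (0:ℝ) else 1) := by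
        rw [Finset.sum_eq_single l]
        · rw [h, if_pos rfl]
        · intro x _ hx
          rw [h, if_neg (fun h' => hx (Fin.succ_injective _ h').symm)]
        · simp
      rw [this, h1, h]; ring

/-- depth -/
noncomputable def dep {m : ℕ} (f : Fin m → Fin (m+1)) (hf : Acyc f) (v : Fin (m+1)) : ℕ :=
  Nat.find (hf v)

lemma dep_succ {m : ℕ} (f : Fin m → Fin (m+1)) (hf : Acyc f) (i : Fin m) :
    dep f hf i.succ = dep f hf (f i) + 1 := by
  unfold dep
  rw [Nat.find_eq_iff]
  refine ⟨?_, ?_⟩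
  · rw [Function.iterate_succ, Function.comp_apply, ext0_succ]
    exact Nat.find_spec (hf (f i))
  · intro n hn h
    cases n with
    | zero => exact Fin.succ_ne_zero i h
    | succ n =>
      rw [Function.iterate_succ, Function.comp_apply, ext0_succ] at h
      exact Nat.find_min (hf (f i)) (by omega) h

/-- edge of `i`. -/
def ed {m : ℕ} (f : Fin m → Fin (m+1)) (i : Fin m) : Sym2 (Fin (m+1)) := s(i.succ, f i)

lemma ed_inj {m : ℕ} (f : Fin m → Fin (m+1)) (hf : Acyc f) : Function.Injective (ed f) := by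
  intro i j h
  unfold ed at h
  rw [Sym2.eq_iff] at h
  rcases h with ⟨h, _⟩ | ⟨h1, h2⟩
  · exact Fin.succ_injective _ h
  · exfalso
    have e1 := dep_succ f hf i
    have e2 := dep_succ f hf j
    rw [h2] at e1
    rw [← h1] at e2
    omega

lemma ne_succ {m : ℕ} (f : Fin m → Fin (m+1)) (hf : Acyc f) (i : Fin m) : i.succ ≠ f i := by
  intro h
  have := dep_succ f hf i
  rw [← h] at this
  omega

noncomputable def Tf {m : ℕ} (f : Fin m → Fin (m+1)) : Finset (Sym2 (Fin (m+1))) :=
  Finset.univ.image (ed f)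

lemma Tf_adj {m : ℕ} (f : Fin m → Fin (m+1)) (hf : Acyc f) (i : Fin m) :
    (SimpleGraph.fromEdgeSet (Tf f : Set (Sym2 (Fin (m+1))))).Adj i.succ (f i) := by
  rw [SimpleGraph.fromEdgeSet_adj]
  refine ⟨?_, ne_succ f hf i⟩
  simp only [Tf, Finset.coe_image, Finset.coe_univ, Set.image_univ, Set.mem_range]
  exact ⟨i, rfl⟩

lemma Tf_isTree {m : ℕ} (f : Fin m → Fin (m+1)) (hf : Acyc f) :
    (SimpleGraph.fromEdgeSet (Tf f : Set (Sym2 (Fin (m+1))))).IsTree := by
  rw [SimpleGraph.isTree_iff_connected_and_card]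
  constructor
  · have hreach : ∀ (n : ℕ) (v : Fin (m+1)), dep f hf v = n →
        (SimpleGraph.fromEdgeSet (Tf f : Set (Sym2 (Fin (m+1))))).Reachable v 0 := by
      intro n
      induction n using Nat.strong_induction_on with
      | _ n ih =>
        intro v hv
        rcases Fin.eq_zero_or_eq_succ v with h | ⟨l, h⟩
        · rw [h]
        · rw [h]
          have h1 := dep_succ f hf l
          rw [h] at hv
          exact (Tf_adj f hf l).reachable.trans (ih (dep f hf (f l)) (by omega) (f l) rfl)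
    haveI : Nonempty (Fin (m+1)) := ⟨0⟩
    exact SimpleGraph.Connected.mk (fun u v => (hreach _ u rfl).trans (hreach _ v rfl).symm)
  · have h1 : (SimpleGraph.fromEdgeSet (Tf f : Set (Sym2 (Fin (m+1))))).edgeSet
        = (Tf f : Set (Sym2 (Fin (m+1)))) := by
      rw [SimpleGraph.edgeSet_fromEdgeSet]
      ext e
      simp only [Set.mem_diff, and_iff_left_iff_imp]
      intro he
      simp only [Tf, Finset.coe_image, Finset.coe_univ, Set.image_univ, Set.mem_range] at he
      obtain ⟨i, rfl⟩ := he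
      intro hdiag
      exact ne_succ f hf i (by simpa [ed] using hdiag)
    rw [h1]
    have h2 : (Tf f).card = m := by
      rw [Tf, Finset.card_image_of_injective _ (ed_inj f hf)]; simp
    rw [Nat.card_eq_fintype_card, Nat.card_eq_fintype_card]
    simp [h2]

lemma Tf_inj {m : ℕ} (f g : Fin m → Fin (m+1)) (hf : Acyc f) (hg : Acyc g) (h : Tf f = Tf g) :
    f = g := by
  have key : ∀ (n : ℕ) (i : Fin m), dep f hf i.succ = n → f i = g i := by
    intro n
    induction n using Nat.strong_induction_on with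
    | _ n ih =>
      intro i hi
      have h1 : ed f i ∈ Tf g := by
        rw [← h]; exact Finset.mem_image_of_mem _ (Finset.mem_univ _)
      simp only [Tf, Finset.mem_image, Finset.mem_univ, true_and] at h1
      obtain ⟨j, hj⟩ := h1
      unfold ed at hj
      rw [Sym2.eq_iff] at hj
      rcases hj with ⟨h2, h3⟩ | ⟨h2, h3⟩
      · have := Fin.succ_injective _ h2
        rw [← h3, this]
      · exfalso
        have e1 := dep_succ f hf i
        have e2 := dep_succ f hf j
        rw [← h2] at e1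
        have h4 := ih (dep f hf j.succ) (by omega) j rfl
        rw [h4, h3] at e2
        omega
  funext i
  exact key _ i rfl

lemma Tf_surj {m : ℕ} (T : Finset (Sym2 (Fin (m+1))))
    (hT : (SimpleGraph.fromEdgeSet (T : Set (Sym2 (Fin (m+1))))).IsTree)
    (hd : ∀ e ∈ T, ¬ e.IsDiag) : ∃ f : Fin m → Fin (m+1), Acyc f ∧ Tf f = T := by
  set G := SimpleGraph.fromEdgeSet (T : Set (Sym2 (Fin (m+1)))) with hG
  have hconn := hT.connected
  have hex : ∀ i : Fin m, ∃ u, G.Adj i.succ u ∧ G.dist u 0 < G.dist i.succ 0 := by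
    intro i
    obtain ⟨p, hp⟩ := (hconn.preconnected i.succ 0).exists_walk_length_eq_dist
    cases p with
    | cons h q =>
      refine ⟨_, h, ?_⟩
      rw [← hp, SimpleGraph.Walk.length_cons]
      have := SimpleGraph.dist_le q
      omega
  choose f hadj hdist using hex
  have hac : Acyc f := by
    have : ∀ (n : ℕ) (v : Fin (m+1)), G.dist v 0 = n → ∃ k, (ext0 f)^[k] v = 0 := by
      intro n
      induction n using Nat.strong_induction_on with
      | _ n ih =>
        intro v hv
        rcases Fin.eq_zero_or_eq_succ v with h | ⟨l, h⟩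
        · exact ⟨0, h⟩
        · rw [h]
          rw [h] at hv
          obtain ⟨k, hk⟩ := ih (G.dist (f l) 0) (by have := hdist l; omega) (f l) rfl
          exact ⟨k + 1, by rw [Function.iterate_succ, Function.comp_apply, ext0_succ]; exact hk⟩
    exact fun v => this _ v rfl
  refine ⟨f, hac, ?_⟩
  apply Finset.eq_of_subset_of_card_le
  · intro e he
    simp only [Tf, Finset.mem_image, Finset.mem_univ, true_and] at he
    obtain ⟨i, rfl⟩ := he
    have := hadj i
    rw [hG, SimpleGraph.fromEdgeSet_adj] at this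
    exact_mod_cast this.1
  · have h1 : (Tf f).card = m := by
      rw [Tf, Finset.card_image_of_injective _ (ed_inj f hac)]; simp
    have h2 := (SimpleGraph.isTree_iff_connected_and_card.1 hT).2
    have h3 : G.edgeSet = (T : Set (Sym2 (Fin (m+1)))) := by
      rw [hG, SimpleGraph.edgeSet_fromEdgeSet]
      ext e
      simp only [Set.mem_diff, and_iff_left_iff_imp]
      intro he hdiag
      exact hd e (by exact_mod_cast he) (by simpa using hdiag)
    rw [h3, Nat.card_eq_fintype_card, Nat.card_eq_fintype_card] at h2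
    simp at h2
    omega

lemma mem_all (n : ℕ) (T : Set (Sym2 (Fin n))) :
    T ∈ (do let a ← (Finset.univ : Finset (Finset (Sym2 (Fin n)))); pure (a : Set (Sym2 (Fin n)))
      : Finset (Set (Sym2 (Fin n)))) := by
  change T ∈ Finset.sup (Finset.univ : Finset (Finset (Sym2 (Fin n))))
    (fun a => ({(a : Set (Sym2 (Fin n)))} : Finset (Set (Sym2 (Fin n)))))
  rw [Finset.mem_sup]
  refine ⟨T.toFinset, Finset.mem_univ _, ?_⟩
  rw [Finset.mem_singleton]
  simp

/-- Weighted matrix-tree theorem (reduced Laplacian, root 0). -/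
theorem mtt (m : ℕ) (w : Sym2 (Fin (m+1)) → ℝ) (hw : ∀ e : Sym2 (Fin (m+1)), e.IsDiag → w e = 0) :
    ∑ T ∈ (Finset.univ : Finset (Finset (Sym2 (Fin (m+1))))).filter
        (fun T => (SimpleGraph.fromEdgeSet (T : Set (Sym2 (Fin (m+1))))).IsTree), ∏ e ∈ T, w e
    = (Matrix.of fun i j : Fin m =>
        (if i = j then ∑ u : Fin (m+1), w s(i.succ, u) else 0) - w s(i.succ, j.succ)).det := by
  rw [det_expand m (fun i u => w s(i.succ, u))]
  have h1 : ∑ f : Fin m → Fin (m+1), (∏ i, w s(i.succ, f i)) * (Nf f).det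
      = ∑ f ∈ (Finset.univ : Finset (Fin m → Fin (m+1))).filter (fun f => Acyc f),
          ∏ i, w s(i.succ, f i) := by
    rw [Finset.sum_filter]
    refine Finset.sum_congr rfl fun f _ => ?_
    split_ifs with hf
    · rw [det_Nf_acyc f hf, mul_one]
    · rw [det_Nf_not f hf, mul_zero]
  rw [h1]
  symm
  have hcoe : ∀ f : Fin m → Fin (m+1), ((Tf f : Set (Sym2 (Fin (m+1)))).toFinset) = Tf f := by
    intro f; ext e; simp
  refine Finset.sum_bij_ne_zero (fun f _ _ => (Tf f : Set (Sym2 (Fin (m+1))))) ?_ ?_ ?_ ?_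
  · intro f hf _
    rw [Finset.mem_filter] at hf ⊢
    exact ⟨mem_all _ _, Tf_isTree f hf.2⟩
  · intro f hf _ g hg _ h
    rw [Finset.mem_filter] at hf hg
    exact Tf_inj f g hf.2 hg.2 (Finset.coe_injective h)
  · intro T hT hne
    rw [Finset.mem_filter] at hT
    have hT' : ((T.toFinset : Finset (Sym2 (Fin (m+1)))) : Set (Sym2 (Fin (m+1)))) = T := by simp
    have hd : ∀ e ∈ T.toFinset, ¬ e.IsDiag := by
      intro e he hdiag
      exact hne (Finset.prod_eq_zero he (hw e hdiag))
    obtain ⟨f, hf, hfT⟩ := Tf_surj T.toFinset (by rw [hT']; exact hT.2) hd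
    have hfT' : (Tf f : Set (Sym2 (Fin (m+1)))) = T := by rw [hfT, hT']
    refine ⟨f, by rw [Finset.mem_filter]; exact ⟨Finset.mem_univ _, hf⟩, ?_, hfT'⟩
    have h2 : ∏ e ∈ T.toFinset, w e = ∏ e ∈ Tf f, w e := by
      rw [← hfT]
    rw [h2, Tf, Finset.prod_image (fun a _ b _ h => ed_inj f hf h)] at hne
    exact hne
  · intro f hf _
    rw [Finset.mem_filter] at hf
    refine Eq.trans ?_ (Finset.prod_congr (s₁ := Tf f) (by ext e; simp) (fun _ _ => rfl))
    rw [Tf, Finset.prod_image (fun a _ b _ h => ed_inj f hf.2 h)]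
    rfl

end Pool.Agent.H23
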